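import Pool.Agent.Work.MP_1ce82a_an.R.Cls

/-! On a closed surface covered by the plane, for a Tonelli Lagrangian (of class `C^3` if the
surface is not orientable) and a residual set of potentials, almost every cohomology class has an
Aubry set which is one hyperbolic periodic orbit or one hyperbolic fixed point, except possibly
when the surface is the torus and the class carries an invariant Lagrangian graph without
equilibria. -/

namespace Pool.Agent.Results.MP_1ce82a_an.Positive

open Pool.Agent.Work.MP_1ce82a_an (E addPot)
open Pool.Agent.Work.MP_1ce82a_an.S

theorem result (G : Type) [Group G] [MulAction G E] (hS : Surf G)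
    (L : E × E → ℝ) (hL : Tonelli G L) (h3 : Orient G ∨ ContDiff ℝ 3 L) :
    ∀ᶠ f in residual (Cinf G),
      Full {c : G → ℝ | c ∈ Uset (addPot L f.1) ∨ (IsTorus G ∧ c ∈ Tset (addPot L f.1))} :=
  main4 hS hL h3

end Pool.Agent.Results.MP_1ce82a_an.Positive
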