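import Pool.Agent.Work.MP_1ce82a_an.W.Robust
import Pool.Agent.Work.MP_1ce82a_an.R.Ex

/-! For a closed surface covered by the plane the following are equivalent: it is not
diffeomorphic to the torus; for every Tonelli Lagrangian (of class `C^3` if the surface is not
orientable) and a residual set of potentials, almost every cohomology class has an Aubry set which
is one hyperbolic periodic orbit or one hyperbolic fixed point; the same for every smooth Tonelli
Lagrangian and a dense set of potentials. -/

namespace Pool.Agent.Results.MP_1ce82a_an.RobustClassification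

open scoped ContDiff
open Pool.Agent.Work.MP_1ce82a_an (E addPot)
open Pool.Agent.Work.MP_1ce82a_an.S

theorem result (G : Type) [Group G] [MulAction G E] (hS : Surf G) :
    List.TFAE [¬ IsTorus G,
      ∀ L : E × E → ℝ, Tonelli G L → (Orient G ∨ ContDiff ℝ 3 L) →
        ∀ᶠ f in residual (Cinf G), Full {c : G → ℝ | c ∈ Uset (addPot L f.1)},
      ∀ L : E × E → ℝ, Tonelli G L → ContDiff ℝ ∞ L →
        Dense {f : Cinf G | Full {c : G → ℝ | c ∈ Uset (addPot L f.1)}}] :=
  Pool.Agent.Work.MP_1ce82a_an.W.three_way hS

/-- The torus case is not empty, so `result` contains the negated form of the question, with a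
smooth Lagrangian and a nonempty open set of bad potentials. -/
theorem negated : ∃ (G : Type) (_ : Group G) (_ : MulAction G E), Surf G ∧
    ∃ L : E × E → ℝ, Tonelli G L ∧ ContDiff ℝ ∞ L ∧
      ¬ Dense {f : Cinf G | Full {c : G → ℝ | c ∈ Uset (addPot L f.1)}} := by
  obtain ⟨G, _, _, hS, hT⟩ := torus_exists
  refine ⟨G, _, _, hS, ?_⟩
  by_contra h
  have h1 : (∀ L : E × E → ℝ, Tonelli G L → ContDiff ℝ ∞ L →
      Dense {f : Cinf G | Full {c : G → ℝ | c ∈ Uset (addPot L f.1)}}) ↔ ¬ IsTorus G :=
    (result G hS).out 2 0
  exact h1.1 (fun L hL hs => not_not.1 fun hn => h ⟨L, hL, hs, hn⟩) hT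

end Pool.Agent.Results.MP_1ce82a_an.RobustClassification
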